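import Pool.Agent.H37.Attr1

set_option autoImplicit false

open Pool.Agent.H37.Attr

/-- Every attractive c.e. degree is almost everywhere dominating. -/
theorem Pool.Agent.Results.MP_9fb7a1_lc.Dominating.result :
    ∀ A : ℕ → Bool, CEDeg A → Attractive A → AEDom A :=
  fun _ => aedom
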